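import Pool.Agent.Y916.Stm

/-!
# Partial fractions
-/

set_option autoImplicit false

open PowerSeries

namespace Pool.Agent.Y535.LG

open Pool.Agent.Y113 Pool.Agent.Y916

/-- the geometric series -/
noncomputable def geo (θ : ℂ) : ℂ⟦X⟧ := PowerSeries.mk fun m => θ ^ m

lemma geo_mul (θ : ℂ) : (1 - PowerSeries.C θ * (X : ℂ⟦X⟧)) * geo θ = 1 := by
  ext m
  rw [sub_mul, one_mul, map_sub, mul_assoc, PowerSeries.coeff_C_mul]
  rcases m with _ | m
  · simp [geo]
  · rw [PowerSeries.coeff_succ_X_mul]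
    simp [geo, pow_succ', PowerSeries.coeff_one]

/-- the coefficients of the partial fraction decomposition -/
noncomputable def aa (Θ : Finset ℂ) (s : ℕ) (θ : ℂ) : ℂ :=
  (θ ^ s * ∏ θ' ∈ Θ.erase θ, (1 - θ' / θ))⁻¹

lemma interp (Θ : Finset ℂ) (h0 : (0 : ℂ) ∉ Θ) (s : ℕ) (hs : s < Θ.card) :
    (Polynomial.X : Polynomial ℂ) ^ s = ∑ θ ∈ Θ, Polynomial.C (aa Θ s θ) *
      ∏ θ' ∈ Θ.erase θ, (1 - Polynomial.C θ' * Polynomial.X) := by
  have hne : ∀ θ ∈ Θ, θ ≠ 0 := fun θ hθ h => h0 (h ▸ hθ)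
  have hc : (Θ.image fun θ => θ⁻¹).card = Θ.card :=
    Finset.card_image_of_injective _ inv_injective
  have hd1 : ∀ θ' : ℂ, (1 - Polynomial.C θ' * Polynomial.X : Polynomial ℂ).natDegree ≤ 1 := by
    intro θ'
    refine (Polynomial.natDegree_sub_le _ _).trans ?_
    rw [Polynomial.natDegree_one]
    exact max_le (by omega) ((Polynomial.natDegree_C_mul_le _ _).trans Polynomial.natDegree_X_le)
  refine Polynomial.eq_of_degrees_lt_of_eval_finset_eq (Θ.image fun θ => θ⁻¹) ?_ ?_ ?_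
  · rw [hc, Polynomial.degree_X_pow]
    exact_mod_cast hs
  · rw [hc]
    refine lt_of_le_of_lt (Polynomial.degree_sum_le _ _) ?_
    rw [Finset.sup_lt_iff (by exact_mod_cast WithBot.bot_lt_coe _)]
    intro θ hθ
    have h1 : (Polynomial.C (aa Θ s θ) *
        ∏ θ' ∈ Θ.erase θ, (1 - Polynomial.C θ' * Polynomial.X)).natDegree ≤ Θ.card - 1 := by
      refine (Polynomial.natDegree_C_mul_le _ _).trans ((Polynomial.natDegree_prod_le _ _).trans ?_)
      refine (Finset.sum_le_sum fun θ' _ => hd1 θ').trans ?_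
      simp [Finset.card_erase_of_mem hθ]
    refine lt_of_le_of_lt (Polynomial.degree_le_of_natDegree_le h1) ?_
    have h2 : Θ.card - 1 < Θ.card := by omega
    exact_mod_cast h2
  · intro x hx
    obtain ⟨θ, hθ, rfl⟩ := Finset.mem_image.1 hx
    rw [Polynomial.eval_finsetSum, Finset.sum_eq_single θ]
    · simp only [Polynomial.eval_pow, Polynomial.eval_X, Polynomial.eval_mul, Polynomial.eval_C,
        Polynomial.eval_prod, Polynomial.eval_sub, Polynomial.eval_one]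
      have h1 : ∏ θ' ∈ Θ.erase θ, (1 - θ' * θ⁻¹) ≠ 0 := by
        refine Finset.prod_ne_zero_iff.2 fun θ' hθ' h => ?_
        rw [Finset.mem_erase] at hθ'
        have := hne θ hθ
        apply hθ'.1
        field_simp at h
        linear_combination -h
      have h2 : ∏ θ' ∈ Θ.erase θ, (1 - θ' / θ) = ∏ θ' ∈ Θ.erase θ, (1 - θ' * θ⁻¹) := by
        simp only [div_eq_mul_inv]
      rw [aa, h2, mul_inv, mul_assoc, inv_mul_cancel₀ h1, mul_one, inv_pow]
    · intro θ₁ hθ₁ hne1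
      simp only [Polynomial.eval_mul, Polynomial.eval_C,
        Polynomial.eval_prod, Polynomial.eval_sub, Polynomial.eval_one, Polynomial.eval_X]
      rw [Finset.prod_eq_zero (i := θ), mul_zero]
      · exact Finset.mem_erase.2 ⟨hne1.symm, hθ⟩
      · rw [mul_inv_cancel₀ (hne θ hθ), sub_self]
    · intro h
      exact absurd hθ h

lemma series (Θ : Finset ℂ) (T : Polynomial ℤ) (h0 : (0 : ℂ) ∉ Θ)
    (hT : T.map (Int.castRingHom ℂ) = ∏ θ ∈ Θ, (1 - Polynomial.C θ * Polynomial.X))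
    (s : ℕ) (hs : s < Θ.card) :
    (X : ℂ⟦X⟧) ^ s * PowerSeries.map (algebraMap ℚ ℂ) (U T) =
      ∑ θ ∈ Θ, PowerSeries.C (aa Θ s θ) * geo θ := by
  have hT0 : T.coeff 0 = 1 := by
    have h1 := congrArg (Polynomial.eval 0) hT
    rw [Polynomial.eval_prod] at h1
    simp only [Polynomial.eval_sub, Polynomial.eval_one, Polynomial.eval_mul, Polynomial.eval_C,
      Polynomial.eval_X, mul_zero, sub_zero, Finset.prod_const_one] at h1
    rw [← Polynomial.coeff_zero_eq_eval_zero, Polynomial.coeff_map] at h1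
    simpa using h1
  have hc : constantCoeff (ps T) ≠ 0 := by
    unfold ps
    rw [Polynomial.constantCoeff_coe, Polynomial.coeff_map, hT0]
    simp
  have h1 : ps T * U T = 1 := PowerSeries.mul_inv_cancel _ hc
  have h2 := congrArg (PowerSeries.map (algebraMap ℚ ℂ)) h1
  rw [map_mul, map_one] at h2
  have h3 : PowerSeries.map (algebraMap ℚ ℂ) (ps T) =
      ∏ θ ∈ Θ, (1 - PowerSeries.C θ * (X : ℂ⟦X⟧)) := by
    have h4 : PowerSeries.map (algebraMap ℚ ℂ) (ps T) =
        ((T.map (Int.castRingHom ℂ) : Polynomial ℂ) : ℂ⟦X⟧) := by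
      unfold ps
      ext m
      simp
    rw [h4, hT, ← Polynomial.coeToPowerSeries.ringHom_apply, map_prod]
    refine Finset.prod_congr rfl fun θ _ => ?_
    simp
  have h6 := congrArg (fun P : Polynomial ℂ => (P : ℂ⟦X⟧)) (interp Θ h0 s hs)
  have h7 : (X : ℂ⟦X⟧) ^ s = ∑ θ ∈ Θ, PowerSeries.C (aa Θ s θ) *
      ∏ θ' ∈ Θ.erase θ, (1 - PowerSeries.C θ' * (X : ℂ⟦X⟧)) := by
    have h8 := congrArg (Polynomial.coeToPowerSeries.ringHom (R := ℂ)) (interp Θ h0 s hs)
    rw [map_sum] at h8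
    simp only [map_mul, map_prod] at h8
    simpa using h8
  rw [h7, Finset.sum_mul]
  refine Finset.sum_congr rfl fun θ hθ => ?_
  rw [h3, ← Finset.mul_prod_erase _ _ hθ] at h2
  rw [mul_assoc]
  congr 1
  have h9 := geo_mul θ
  calc (∏ θ' ∈ Θ.erase θ, (1 - PowerSeries.C θ' * (X : ℂ⟦X⟧))) *
        PowerSeries.map (algebraMap ℚ ℂ) (U T)
      = ((1 - PowerSeries.C θ * (X : ℂ⟦X⟧)) * geo θ) *
        ((∏ θ' ∈ Θ.erase θ, (1 - PowerSeries.C θ' * (X : ℂ⟦X⟧))) *
        PowerSeries.map (algebraMap ℚ ℂ) (U T)) := by rw [h9, one_mul]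
    _ = geo θ * ((1 - PowerSeries.C θ * (X : ℂ⟦X⟧)) *
        (∏ θ' ∈ Θ.erase θ, (1 - PowerSeries.C θ' * (X : ℂ⟦X⟧))) *
        PowerSeries.map (algebraMap ℚ ℂ) (U T)) := by ring
    _ = geo θ := by rw [h2, mul_one]

lemma coeff_F (Θ : Finset ℂ) (T : Polynomial ℤ) (h0 : (0 : ℂ) ∉ Θ)
    (hT : T.map (Int.castRingHom ℂ) = ∏ θ ∈ Θ, (1 - Polynomial.C θ * Polynomial.X))
    (s : ℕ) (hs : s < Θ.card) (m : ℕ) :
    ((coeff m (F T s) : ℚ) : ℂ) = ∑ θ ∈ Θ, aa Θ s θ / θ * (θ ^ m / m) := by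
  have hne : ∀ θ ∈ Θ, θ ≠ 0 := fun θ hθ h => h0 (h ▸ hθ)
  rcases m with _ | m
  · simp [F]
  · have h1 := congrArg (coeff m) (series Θ T h0 hT s hs)
    rw [map_sum, PowerSeries.coeff_X_pow_mul'] at h1
    simp only [PowerSeries.coeff_C_mul, geo, PowerSeries.coeff_mk, PowerSeries.coeff_map] at h1
    have h2 : ((coeff (m + 1) (F T s) : ℚ) : ℂ) =
        (if s ≤ m then algebraMap ℚ ℂ (coeff (m - s) (U T)) else 0) / ((m + 1 : ℕ) : ℂ) := by
      unfold F
      rw [PowerSeries.coeff_mk]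
      by_cases h : s ≤ m
      · rw [if_neg (by omega), if_pos h]
        push_cast
        rw [eq_ratCast]
      · rw [if_pos (by omega), if_neg h]
        simp
    rw [h2, h1, Finset.sum_div]
    refine Finset.sum_congr rfl fun θ hθ => ?_
    have := hne θ hθ
    rw [pow_succ]
    field_simp

theorem t_part : S_part := by
  intro Θ T h0 hT s hs
  have hne : ∀ θ ∈ Θ, θ ≠ 0 := fun θ hθ h => h0 (h ▸ hθ)
  classical
  refine ⟨fun θ => if θ ∈ Θ then -(aa Θ s θ / θ) else 0, fun θ => ?_, fun t ht hΘ => ?_⟩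
  · beta_reduce
    split_ifs with hθ
    · have hm : ∀ x ∈ Θ, x ∈ IntermediateField.adjoin ℚ (Θ : Set ℂ) := fun x hx =>
        IntermediateField.subset_adjoin _ _ hx
      refine neg_mem (div_mem (inv_mem (mul_mem (pow_mem (hm θ hθ) _) (prod_mem fun x hx => ?_)))
        (hm θ hθ))
      exact sub_mem (one_mem _) (div_mem (hm x (Finset.mem_of_mem_erase hx)) (hm θ hθ))
    · exact zero_mem _
  · unfold ev
    rw [Complex.ofReal_tsum]
    have htC : (t : ℂ) ≠ 0 := by exact_mod_cast ht.ne'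
    have h1 : ∀ θ ∈ Θ, HasSum (fun m : ℕ => aa Θ s θ / θ * ((θ / t) ^ m / m))
        (aa Θ s θ / θ * (-Complex.log (1 - θ / t))) := by
      intro θ hθ
      refine (Complex.hasSum_taylorSeries_neg_log ?_).mul_left _
      rw [norm_div, Complex.norm_real, Real.norm_of_nonneg ht.le, div_lt_one ht]
      exact hΘ θ hθ
    have h2 := hasSum_sum h1
    have h3 : (fun m : ℕ => ∑ θ ∈ Θ, aa Θ s θ / θ * ((θ / t) ^ m / m)) = fun m : ℕ =>
        ((((coeff m (F T s) : ℚ) : ℝ) * (1 / t) ^ m : ℝ) : ℂ) := by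
      funext m
      push_cast
      rw [coeff_F Θ T h0 hT s hs m, Finset.sum_mul]
      refine Finset.sum_congr rfl fun θ _ => ?_
      rw [div_pow, one_div, inv_pow]
      field_simp
    rw [h3] at h2
    rw [h2.tsum_eq]
    refine Finset.sum_congr rfl fun θ hθ => ?_
    beta_reduce
    rw [if_pos hθ]
    ring

end Pool.Agent.Y535.LG
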