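import Pool.Agent.Y535.LG.Mon
import Pool.Agent.Y113.G.Final
import Pool.Agent.Y141.GF.Shid

/-!
# The values at `1 / t` have no polynomial relation of small degree
-/

set_option autoImplicit false

open PowerSeries

namespace Pool.Agent.Y535.LG

open Pool.Agent.Y113 Pool.Agent.Y916

/-- the exponent as a finitely supported function -/
noncomputable def toF {n Δ : ℕ} (e : Mn n Δ) : Fin n →₀ ℕ :=
  Finsupp.equivFunOnFinite.symm fun s => (e.1 s : ℕ)

lemma toF_apply {n Δ : ℕ} (e : Mn n Δ) (s : Fin n) : toF e s = (e.1 s : ℕ) := rfl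

lemma toF_inj {n Δ : ℕ} : Function.Injective (toF (n := n) (Δ := Δ)) := by
  intro e e' h
  apply Subtype.ext
  funext s
  apply Fin.ext
  have := DFunLike.congr_fun h s
  rwa [toF_apply, toF_apply] at this

lemma toF_surj {n Δ : ℕ} (P : MvPolynomial (Fin n) ℚ) (hP : P.totalDegree ≤ Δ) (d : Fin n →₀ ℕ)
    (hd : d ∈ P.support) : ∃ e : Mn n Δ, toF e = d := by
  have h1 : (d.sum fun _ k => k) ≤ Δ := (MvPolynomial.le_totalDegree hd).trans hP
  have h2 : ∑ i, d i ≤ Δ := by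
    rwa [Finsupp.sum_fintype _ _ (fun _ => rfl)] at h1
  have hi : ∀ i, d i < Δ + 1 := fun i => by
    have := Finset.single_le_sum (f := fun i => d i) (fun _ _ => Nat.zero_le _) (Finset.mem_univ i)
    omega
  refine ⟨⟨fun i => ⟨d i, hi i⟩, h2⟩, ?_⟩
  ext s
  rfl

lemma aeval_sum {n Δ : ℕ} (P : MvPolynomial (Fin n) ℚ) (hP : P.totalDegree ≤ Δ) (x : Fin n → ℝ) :
    MvPolynomial.aeval x P = ∑ e : Mn n Δ, P.coeff (toF e) • ∏ s, x s ^ (e.1 s : ℕ) := by
  rw [MvPolynomial.aeval_def, MvPolynomial.eval₂_eq']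
  have h1 : ∑ d ∈ P.support, (algebraMap ℚ ℝ) (P.coeff d) * ∏ i, x i ^ d i =
      ∑ d ∈ Finset.univ.image (toF (n := n) (Δ := Δ)),
        (algebraMap ℚ ℝ) (P.coeff d) * ∏ i, x i ^ d i := by
    refine Finset.sum_subset ?_ ?_
    · intro d hd
      obtain ⟨e, he⟩ := toF_surj P hP d hd
      exact Finset.mem_image.2 ⟨e, Finset.mem_univ _, he⟩
    · intro d _ hd
      rw [MvPolynomial.notMem_support_iff.1 hd]
      simp
  rw [h1, Finset.sum_image (fun a _ b _ h => toF_inj h)]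
  refine Finset.sum_congr rfl fun e _ => ?_
  rw [Algebra.smul_def]
  rfl

lemma T_ne {n H t : ℕ} {T : Polynomial ℤ} (h0 : T.coeff 0 = 1) (hd : T.natDegree = n)
    (hH : ∀ l, |T.coeff l| ≤ H) (ht : (H + 2) ^ (n + 1) ≤ t) :
    Polynomial.aeval (1 / (t : ℝ)) T ≠ 0 := by
  have hn : n < 2 ^ n := Nat.lt_two_pow_self
  have h1 : n * H < t := by
    calc n * H ≤ 2 ^ n * H := Nat.mul_le_mul_right _ hn.le
      _ ≤ (H + 2) ^ n * H := Nat.mul_le_mul_right _ (Nat.pow_le_pow_left (by omega) _)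
      _ < (H + 2) ^ n * (H + 2) := Nat.mul_lt_mul_of_pos_left (by omega) (by positivity)
      _ = (H + 2) ^ (n + 1) := by rw [pow_succ]
      _ ≤ t := ht
  have ht0 : (0 : ℝ) < t := by
    have : 0 < t := by omega
    exact_mod_cast this
  have ht1 : (1 : ℝ) ≤ t := by
    have : 1 ≤ t := by omega
    exact_mod_cast this
  rw [Polynomial.aeval_eq_sum_range, hd, Finset.sum_range_succ']
  have h2 : |∑ k ∈ Finset.range n, T.coeff (k + 1) • (1 / (t : ℝ)) ^ (k + 1)| ≤ n * (H / t) := by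
    refine (Finset.abs_sum_le_sum_abs _ _).trans ?_
    have h3 : ∀ k ∈ Finset.range n, |T.coeff (k + 1) • (1 / (t : ℝ)) ^ (k + 1)| ≤ H / t := by
      intro k _
      rw [zsmul_eq_mul, abs_mul]
      have h4 : |((T.coeff (k + 1) : ℤ) : ℝ)| ≤ H := by exact_mod_cast hH (k + 1)
      have h5 : |(1 / (t : ℝ)) ^ (k + 1)| ≤ 1 / t := by
        rw [abs_of_nonneg (by positivity), pow_succ]
        have : (1 / (t : ℝ)) ^ k ≤ 1 := pow_le_one₀ (by positivity) (by
          rw [div_le_one ht0]; exact ht1)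
        calc (1 / (t : ℝ)) ^ k * (1 / t) ≤ 1 * (1 / t) :=
              mul_le_mul_of_nonneg_right this (by positivity)
          _ = _ := one_mul _
      calc |((T.coeff (k + 1) : ℤ) : ℝ)| * |(1 / (t : ℝ)) ^ (k + 1)| ≤ H * (1 / t) :=
            mul_le_mul h4 h5 (abs_nonneg _) (by positivity)
        _ = H / t := by ring
    refine (Finset.sum_le_sum h3).trans ?_
    simp
  have h6 : (n : ℝ) * (H / t) < 1 := by
    rw [← mul_div_assoc, div_lt_one ht0]
    exact_mod_cast h1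
  have h7 := (abs_lt.1 (h2.trans_lt h6)).1
  rw [h0]
  intro h8
  simp only [pow_zero, one_smul] at h8
  linarith

theorem val_of (hb : S_base) (hl : S_LI) : S_val := by
  intro n Δ
  obtain ⟨E₀, hE₀⟩ := hb n
  obtain ⟨E₁, hE₁⟩ := t_mon n n Δ
  obtain ⟨E₂, hE₂⟩ := G_of Pool.Agent.Y141.GF.t_shid Pool.Agent.Y141.GF.t_loc
    (Fintype.card (Mn n Δ)) n
  refine ⟨((E₀ + 1) * E₁ + 1) * E₂ + (n + 1) + (E₀ + 1), fun H t T ht h0 hd hsq hH P hP hPv => ?_⟩
  have hB : (1 : ℝ) ≤ (H : ℝ) + 2 := one_le_base H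
  have hB2 : 2 ≤ H + 2 := by omega
  have htN : ∀ a, a ≤ ((E₀ + 1) * E₁ + 1) * E₂ + (n + 1) + (E₀ + 1) → (H + 2) ^ a ≤ t := fun a ha =>
    (Nat.pow_le_pow_right (by omega) ha).trans ht
  have htR : ∀ a, a ≤ ((E₀ + 1) * E₁ + 1) * E₂ + (n + 1) + (E₀ + 1) →
      ((H : ℝ) + 2) ^ a ≤ t := fun a ha => by exact_mod_cast htN a ha
  have hG := hE₀ H T h0 hd.le hH
  have ht1 : (1 : ℝ) ≤ t := by simpa using htR 0 (by omega)
  have ht0 : (0 : ℝ) < t := by linarith
  have hG2 := (hE₁ _ T (fun s : Fin n => F T s) hG).mono le_rfl (pow_base H _ _)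
  let e₀ : Mn n Δ := ⟨fun _ => 0, by simp⟩
  have hev := hE₂ (Mn n Δ) _ T (mo (fun s : Fin n => F T s) Δ) e₀ t le_rfl hG2
    (by simp [mo, e₀]) (hl n Δ T h0 hd hsq)
    ((pow_base H _ _).trans (htR _ (by omega)))
    (T_ne h0 hd hH (htN _ (by omega)))
  -- evaluation
  have hcv : ∀ s : Fin n, Cv (t : ℝ) (F T s) := by
    intro s
    refine Cv.of_bound ht0 (A := ((H : ℝ) + 2) ^ E₀) (B := ((H : ℝ) + 2) ^ E₀) (by positivity) ?_
      fun m => ?_
    · refine lt_of_lt_of_le ?_ (htR (E₀ + 1) (by omega))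
      exact pow_lt_pow_right₀ (by linarith [show (0 : ℝ) ≤ H by positivity]) (by omega)
    · have := hG.size (some s) m
      rw [pow_succ'] at this
      exact this
  have hmo : ∀ e : Mn n Δ, ev t (mo (fun s : Fin n => F T s) Δ e) =
      ∏ s : Fin n, (ev t (F T s)) ^ (e.1 s : ℕ) := by
    intro e
    unfold mo
    rw [Cv.ev_prod ht0 _ _ fun s _ => (hcv s).pow ht0 _]
    exact Finset.prod_congr rfl fun s _ => (hcv s).ev_pow ht0 _
  rw [aeval_sum P hP] at hPv
  have h3 := Fintype.linearIndependent_iff.1 hev (fun e => P.coeff (toF e)) (by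
    simp only [hmo]
    exact hPv)
  ext d
  rw [MvPolynomial.coeff_zero]
  by_contra hne
  obtain ⟨e, he⟩ := toF_surj P hP d (MvPolynomial.mem_support_iff.2 hne)
  rw [← he] at hne
  exact hne (h3 e)

end Pool.Agent.Y535.LG
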