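import Pool.Agent.Y916.Stm

/-!
# Monomials in a G-system form a G-system
-/

set_option autoImplicit false

open PowerSeries

namespace Pool.Agent.Y535.LG

open Pool.Agent.Y113 Pool.Agent.Y916

lemma pow_base' {C : ℝ} (hC : 1 ≤ C) (a E : ℕ) : (2 * (2 * C) ^ a) ^ E ≤ (2 * C) ^ ((a + 1) * E) := by
  rw [pow_mul]
  refine pow_le_pow_left₀ (by positivity) ?_ _
  rw [pow_succ']
  exact mul_le_mul_of_nonneg_right (by linarith) (by positivity)

lemma gwords (q n Δ : ℕ) : ∃ E : ℕ, ∀ (C : ℝ) (T : Polynomial ℤ) (y : Option (Fin n) → ℚ⟦X⟧),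
    GSys q C T y → GSys q ((2 * C) ^ E) T (fun f : Fin Δ → Option (Fin n) => ∏ i, y (f i)) := by
  obtain ⟨E₁, hE₁⟩ := t_prod q
  induction Δ with
  | zero =>
    refine ⟨1, fun C T y h => ?_⟩
    have hC := h.one_le
    have h1 := (GSys.const (ι := Fin 0 → Option (Fin n)) h.one_le h.degT h.sizeT).mono le_rfl
      (show C ≤ (2 * C) ^ 1 by rw [pow_one]; linarith)
    simpa using h1
  | succ Δ ih =>
    obtain ⟨E, hE⟩ := ih
    refine ⟨(E + 1 + 1) * E₁, fun C T y h => ?_⟩
    have hC := h.one_le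
    have h1 := h.mono le_rfl (show C ≤ (2 * C) ^ (E + 1) by
      calc C ≤ (2 * C) ^ 1 := by rw [pow_one]; linarith
        _ ≤ (2 * C) ^ (E + 1) := pow_le_pow_right₀ (by linarith) (by omega))
    have h2 := (hE C T y h).mono le_rfl (show (2 * C) ^ E ≤ (2 * C) ^ (E + 1) from
      pow_le_pow_right₀ (by linarith) (by omega))
    have h3 := (hE₁ _ _ _ _ _ _ h1 h2).mono le_rfl (pow_base' hC _ _)
    have h4 := h3.reindex (Fin.consEquiv fun _ => Option (Fin n)).symm
    have h5 : (fun f : Fin (Δ + 1) → Option (Fin n) => ∏ i, y (f i)) = fun j =>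
        y ((Fin.consEquiv fun _ => Option (Fin n)).symm j).1 *
          ∏ i, y (((Fin.consEquiv fun _ => Option (Fin n)).symm j).2 i) := by
      funext f
      rw [Fin.prod_univ_succ]
      rfl
    rw [h5]
    exact h4

lemma exists_word' (n Δ : ℕ) : ∀ e : Fin n → ℕ, ∑ i, e i ≤ Δ → ∃ f : Fin Δ → Option (Fin n),
    ∀ z : Fin n → ℚ⟦X⟧, ∏ i, (f i).elim (1 : ℚ⟦X⟧) z = ∏ i, z i ^ e i := by
  induction Δ with
  | zero =>
    intro e he
    have h1 : ∀ i, e i = 0 := fun i => by
      have := Finset.single_le_sum (f := e) (fun _ _ => Nat.zero_le _) (Finset.mem_univ i)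
      omega
    exact ⟨fun i => none, fun z => by simp [h1]⟩
  | succ Δ ih =>
    intro e he
    by_cases h0 : ∀ i, e i = 0
    · exact ⟨fun i => none, fun z => by simp [h0]⟩
    · push Not at h0
      obtain ⟨i₀, hi₀⟩ := h0
      have e1 : e = Function.update e i₀ (e i₀ - 1) + Pi.single i₀ 1 := by
        funext i
        by_cases hi : i = i₀
        · subst hi; simp; omega
        · simp [hi]
      have e2 : ∑ i, e i = (∑ i, Function.update e i₀ (e i₀ - 1) i) + 1 := by
        conv_lhs => rw [e1]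
        simp [Finset.sum_add_distrib]
      obtain ⟨f, hf⟩ := ih (Function.update e i₀ (e i₀ - 1)) (by omega)
      refine ⟨Fin.cons (some i₀) f, fun z => ?_⟩
      rw [Fin.prod_univ_succ]
      simp only [Fin.cons_zero, Fin.cons_succ]
      rw [hf z]
      have e3 : ∏ i, z i ^ e i = (∏ i, z i ^ (Function.update e i₀ (e i₀ - 1)) i) *
          ∏ i, z i ^ (Pi.single i₀ 1 : Fin n → ℕ) i := by
        rw [← Finset.prod_mul_distrib]
        refine Finset.prod_congr rfl fun i _ => ?_
        rw [← pow_add]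
        congr 1
        exact congrFun e1 i
      have e4 : ∏ i, z i ^ (Pi.single i₀ 1 : Fin n → ℕ) i = z i₀ := by
        rw [Finset.prod_eq_single i₀]
        · simp
        · intro j _ hj; simp [hj]
        · simp
      rw [e3, e4, mul_comm]
      rfl

lemma word_exp' (n Δ : ℕ) : ∀ f : Fin Δ → Option (Fin n), ∃ e : Fin n → ℕ, ∑ i, e i ≤ Δ ∧
    ∀ z : Fin n → ℚ⟦X⟧, ∏ i, (f i).elim (1 : ℚ⟦X⟧) z = ∏ i, z i ^ e i := by
  induction Δ with
  | zero => exact fun f => ⟨fun _ => 0, by simp, fun z => by simp⟩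
  | succ Δ ih =>
    intro f
    obtain ⟨e, he, he'⟩ := ih (fun i => f i.succ)
    rcases h0 : f 0 with _ | j
    · refine ⟨e, he.trans (by omega), fun z => ?_⟩
      rw [Fin.prod_univ_succ, h0, he' z]
      simp
    · refine ⟨e + Pi.single j 1, ?_, fun z => ?_⟩
      · simp [Finset.sum_add_distrib]; omega
      · rw [Fin.prod_univ_succ, h0, he' z]
        simp only [Option.elim_some, Pi.add_apply, pow_add, Finset.prod_mul_distrib]
        have e4 : ∏ i, z i ^ (Pi.single j 1 : Fin n → ℕ) i = z j := by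
          rw [Finset.prod_eq_single j]
          · simp
          · intro l _ hl; simp [hl]
          · simp
        rw [e4, mul_comm]

/-- monomials in a G-system -/
theorem t_mon : S_mon := by
  intro q n Δ
  obtain ⟨E, hE⟩ := gwords q n Δ
  obtain ⟨E₁, hE₁⟩ := t_fam (max (Fintype.card (Fin Δ → Option (Fin n))) (Fintype.card (Mn n Δ))) q
  refine ⟨(E + 1) * E₁, fun C T y h => ?_⟩
  have hC := h.one_le
  have h1 := hE C T _ h
  have hM : ∀ e : Mn n Δ, ∃ f : Fin Δ → Option (Fin n),
      ∏ i, (f i).elim (1 : ℚ⟦X⟧) y = mo y Δ e := by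
    intro e
    obtain ⟨f, hf⟩ := exists_word' n Δ (fun i => (e.1 i : ℕ)) e.2
    exact ⟨f, hf y⟩
  choose fM hfM using hM
  have hM' : ∀ f : Fin Δ → Option (Fin n), ∃ e : Mn n Δ,
      ∏ i, (f i).elim (1 : ℚ⟦X⟧) y = mo y Δ e := by
    intro f
    obtain ⟨e, he, he'⟩ := word_exp' n Δ f
    have hi : ∀ i, e i < Δ + 1 := fun i => by
      have := Finset.single_le_sum (f := e) (fun _ _ => Nat.zero_le _) (Finset.mem_univ i)
      omega
    exact ⟨⟨fun i => ⟨e i, hi i⟩, he⟩, he' y⟩
  choose eM heM using hM'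
  classical
  have hone : (1 : ℝ) ≤ (2 * C) ^ E := one_le_pow₀ (by linarith)
  have h2 := hE₁ (Fin Δ → Option (Fin n)) (Mn n Δ) ((2 * C) ^ E) T
    (fun f => ∏ i, (f i).elim (1 : ℚ⟦X⟧) y) (mo y Δ)
    (fun e f => if f = fM e then 1 else 0) (fun f e => if e = eM f then 1 else 0)
    (le_max_left _ _) (le_max_right _ _) h1 ?_ ?_ ?_ ?_
  · exact h2.mono le_rfl (pow_base' hC _ _)
  · intro e f
    split_ifs
    · simpa using hone
    · simp; positivity
  · intro f e
    split_ifs
    · simpa using hone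
    · simp; positivity
  · intro e
    rw [Finset.sum_eq_single (fM e)]
    · rw [if_pos rfl, ← hfM e]
      simp
    · intro f _ hf
      rw [if_neg hf]
      simp
    · intro h
      exact absurd (Finset.mem_univ _) h
  · intro f
    rw [Finset.sum_eq_single (eM f)]
    · rw [if_pos rfl, ← heM f]
      simp
    · intro f _ hf
      rw [if_neg hf]
      simp
    · intro h
      exact absurd (Finset.mem_univ _) h

end Pool.Agent.Y535.LG
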